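import Mathlib
import Pool.Agent.H20.Rado

namespace Pool.Agent.Results.MP_591151_lc.Exists

open Classical H20.Rado

/-- no nontrivial automorphism of `G` preserves all colours -/
def Dist {X I : Type} (G : SimpleGraph X) (c : X → I) : Prop :=
  ∀ φ : G ≃g G, (∀ x, c (φ x) = c x) → ∀ x, φ x = x

abbrev X := ℕ → ℤ

def bt (x y : X) (n : ℕ) : Bool :=
  (x n).natAbs.testBit (Encodable.encode (fun i : Fin n => y i))

def G : SimpleGraph X where
  Adj x y := ∃ n, x n ≠ y n ∧ (∀ m, n < m → x m = y m) ∧ bt x y n ≠ bt y x n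
  symm := ⟨fun _ _ ⟨n, h1, h2, h3⟩ => ⟨n, h1.symm, fun m hm => (h2 m hm).symm, h3.symm⟩⟩
  loopless := ⟨fun _ ⟨_, h1, _⟩ => h1 rfl⟩

theorem adj_iff {x y : X} {n : ℕ} (h1 : x n ≠ y n) (h2 : ∀ m, n < m → x m = y m) :
    G.Adj x y ↔ bt x y n ≠ bt y x n := by
  refine ⟨?_, fun h => ⟨n, h1, h2, h⟩⟩
  rintro ⟨k, a1, a2, a3⟩
  rcases lt_trichotomy k n with h | rfl | h
  · exact absurd (a2 n h) h1
  · exact a3
  · exact absurd (h2 k h) a1

theorem G_meas : MeasurableSet {p : X × X | G.Adj p.1 p.2} := by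
  have hb : ∀ n, Measurable (fun p : X × X => bt p.1 p.2 n) := fun n =>
    (measurable_of_countable (fun q : ℤ × (Fin n → ℤ) =>
      q.1.natAbs.testBit (Encodable.encode q.2))).comp
      (Measurable.prodMk ((measurable_pi_apply n).comp measurable_fst)
        (measurable_pi_lambda _ fun i => (measurable_pi_apply (i : ℕ)).comp measurable_snd))
  have he : ∀ n, MeasurableSet {p : X × X | p.1 n = p.2 n} := fun n =>
    measurableSet_eq_fun ((measurable_pi_apply n).comp measurable_fst)
      ((measurable_pi_apply n).comp measurable_snd)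
  have : {p : X × X | G.Adj p.1 p.2} = ⋃ n, {p : X × X | p.1 n = p.2 n}ᶜ ∩
      ((⋂ m, ⋂ (_ : n < m), {p : X × X | p.1 m = p.2 m}) ∩
        {p : X × X | bt p.1 p.2 n = bt p.2 p.1 n}ᶜ) := by
    ext p
    simp [G]
  rw [this]
  refine MeasurableSet.iUnion fun n => (he n).compl.inter (MeasurableSet.inter
    (MeasurableSet.iInter fun m => MeasurableSet.iInter fun _ => he m) ?_)
  exact (measurableSet_eq_fun (hb n) ((hb n).comp measurable_swap)).compl

def Cl (t : X) : Set X := {y | ∃ n, ∀ m, n ≤ m → y m = t m}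

theorem self_mem (t : X) : t ∈ Cl t := ⟨0, fun _ _ => rfl⟩

theorem cl_eq {t y : X} (h : y ∈ Cl t) : Cl y = Cl t := by
  obtain ⟨n, hn⟩ := h
  ext z
  constructor
  · rintro ⟨k, hk⟩
    exact ⟨max n k, fun m hm => (hk m (by omega)).trans (hn m (by omega))⟩
  · rintro ⟨k, hk⟩
    exact ⟨max n k, fun m hm => (hk m (by omega)).trans (hn m (by omega)).symm⟩

theorem adj_cl {t a b : X} (h : G.Adj a b) (ha : a ∈ Cl t) : b ∈ Cl t := by
  obtain ⟨n, -, h2, -⟩ := h
  rw [← cl_eq ha]
  exact ⟨n + 1, fun m hm => (h2 m hm).symm⟩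

theorem cl_range {t y : X} (h : y ∈ Cl t) : ∃ g : ℕ →₀ ℤ, y = t + g := by
  obtain ⟨n, hn⟩ := h
  refine ⟨Finsupp.onFinset (Finset.range n) (fun m => y m - t m) fun m hm => ?_, ?_⟩
  · by_contra h
    exact hm (by simp [hn m (by simpa using h)])
  · funext m
    simp

theorem cl_cnt (t : X) : (Cl t).Countable :=
  (Set.countable_range (fun g : ℕ →₀ ℤ => (t + g : X))).mono fun _ hy => by
    obtain ⟨g, hg⟩ := cl_range hy
    exact ⟨g, hg.symm⟩

theorem bits (S : Finset ℕ) (b : ℕ → Bool) (K : ℕ) :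
    ∃ w : ℕ, K < w ∧ ∀ i ∈ S, w.testBit i = b i := by
  let M := S.sup id + K + 1
  refine ⟨2 ^ M + Nat.ofBits (fun i : Fin M => b i), ?_, fun i hi => ?_⟩
  · have : M < 2 ^ M := Nat.lt_two_pow_self
    omega
  · have h1 : i ≤ S.sup id := Finset.le_sup (f := id) hi
    have h2 : i < M := by omega
    rw [Nat.testBit_two_pow_add_gt h2, Nat.testBit_ofBits_lt _ _ h2]

theorem ext0 (t : X) (F : Finset X) (hF : ∀ a ∈ F, a ∈ Cl t) (p : X → Prop) (y : X)
    (hy : y ∈ Cl t) (k : ℕ) :
    ∃ z ∈ Cl t, z ∉ F ∧ (∀ i < k, z i = y i) ∧ ∀ a ∈ F, (G.Adj a z ↔ p a) := by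
  have hF' : ∀ a ∈ F, a ∈ Cl y := by rw [cl_eq hy]; exact hF
  choose! N hN using hF'
  set n := F.sup N + k with hn
  have hag : ∀ a ∈ F, ∀ m, n ≤ m → a m = y m := fun a ha m hm =>
    hN a ha m (le_trans (Finset.le_sup (f := N) ha) (by omega))
  let cd : X → ℕ := fun a => Encodable.encode (fun i : Fin n => a i)
  have hcd : ∀ a ∈ F, ∀ b ∈ F, cd a = cd b → a = b := by
    intro a ha b hb h
    have h1 := Encodable.encode_injective h
    funext m
    by_cases hm : m < n
    · exact congrFun h1 ⟨m, hm⟩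
    · rw [hag a ha m (by omega), hag b hb m (by omega)]
  obtain ⟨w, hw1, hw2⟩ := bits (F.image cd)
    (fun i => xor (bt y y n) (decide (∃ a ∈ F, cd a = i ∧ p a))) (y n).natAbs
  have hwy : (w : ℤ) ≠ y n := by omega
  have hzn : ∀ a ∈ F, a n ≠ Function.update y n (w : ℤ) n := fun a ha => by
    rw [Function.update_self, hag a ha n le_rfl]; exact hwy.symm
  refine ⟨Function.update y n w, ?_, fun h => hzn _ h rfl, fun i hi => ?_, fun a ha => ?_⟩
  · rw [← cl_eq hy]
    exact ⟨n + 1, fun m hm => Function.update_of_ne (by omega) _ _⟩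
  · exact Function.update_of_ne (by omega) _ _
  · rw [adj_iff (hzn a ha) (fun m hm => by
      rw [Function.update_of_ne (by omega), hag a ha m hm.le])]
    have e1 : bt a (Function.update y n w) n = bt y y n := by
      unfold bt
      rw [hag a ha n le_rfl]
      congr 2
      funext i
      exact Function.update_of_ne (by have := i.2; omega) _ _
    have e2 : bt (Function.update y n w) a n = w.testBit (cd a) := by
      unfold bt
      rw [Function.update_self, Int.natAbs_natCast]
    rw [e1, e2, hw2 _ (Finset.mem_image_of_mem _ ha)]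
    have e3 : (∃ b ∈ F, cd b = cd a ∧ p b) ↔ p a :=
      ⟨fun ⟨b, hb, h1, h2⟩ => hcd b hb a ha h1 ▸ h2, fun h => ⟨a, ha, rfl, h⟩⟩
    rw [← e3]
    cases bt y y n <;> simp

theorem not_dist {I : Type} [MeasurableSpace I] [MeasurableSingletonClass I] [Countable I]
    (c : X → I) (hc : Measurable c) : ¬ Dist G c := by
  choose O hO1 hO2 using fun i : I => (hc (measurableSet_singleton i)).residualEq_isOpen
  have h1 : ∀ᶠ x in residual X, ∀ i, (c x = i ↔ x ∈ O i) :=
    eventually_countable_forall.2 fun i => (hO2 i).mono fun x hx => Iff.of_eq hx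
  have h2 : ∀ᶠ x in residual X, ∀ g : ℕ →₀ ℤ, ∀ i, (c (x + g) = i ↔ x + g ∈ O i) :=
    eventually_countable_forall.2 fun g =>
      tendsto_residual_of_isOpenMap (Homeomorph.addRight (g : X)).continuous
        (Homeomorph.addRight (g : X)).isOpenMap h1
  obtain ⟨t, ht⟩ := (dense_of_mem_residual h2).nonempty
  have h3 : ∀ y ∈ Cl t, ∀ i, (c y = i ↔ y ∈ O i) := fun y hy => by
    obtain ⟨g, rfl⟩ := cl_range hy
    exact ht g
  have hE : Ext G (Cl t) c := by
    intro F hF p y hy
    obtain ⟨S, u, hu1, hu2⟩ := isOpen_pi_iff.1 (hO1 (c y)) y ((h3 y hy _).1 rfl)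
    obtain ⟨z, hz, a1, a2, a3⟩ := ext0 t F hF p y hy (S.sup id + 1)
    refine ⟨z, hz, a1, (h3 z hz _).2 (hu2 fun i hi => ?_), a3⟩
    rw [a2 i (Nat.lt_succ_of_le (Finset.le_sup (f := id) hi))]
    exact (hu1 i hi).2
  obtain ⟨φ, h4, x, h5⟩ := exists_aut hE (cl_cnt t) ⟨t, self_mem t⟩ (fun a b => adj_cl)
  exact fun h => h5 (h φ h4 x)

theorem fin_dist : ∃ c : X → Option (Bool × Bool), Dist G c := by
  have hE : ∀ t, Ext G (Cl t) (fun _ => ()) := fun t F hF p y hy =>
    let ⟨z, a, b, _, d⟩ := ext0 t F hF p y hy 0; ⟨z, a, b, rfl, d⟩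
  choose r hr1 hr2 hr3 hr4 using fun t => exists_ray (hE t) (cl_cnt t) ⟨t, self_mem t⟩
  let rep : X → X := fun x => Classical.epsilon (fun y => y ∈ Cl x)
  have hrep : ∀ x, rep x ∈ Cl x := fun x => Classical.epsilon_spec ⟨x, self_mem x⟩
  have hrep' : ∀ x y, y ∈ Cl x → rep y = rep x := fun x y h => by simp only [rep, cl_eq h]
  have hx : ∀ x, x ∈ Cl (rep x) := fun x => by rw [cl_eq (hrep x)]; exact self_mem x
  let β : X → ℕ → Bool := fun t n => decide (t n.unpair.1 = Denumerable.ofNat ℤ n.unpair.2)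
  have hβ : ∀ t u, (∀ n, β t n = β u n) → t = u := fun t u h => by
    funext i
    have := h (Nat.pair i (Encodable.encode (t i)))
    simp only [β, Nat.unpair_pair, Denumerable.ofNat_encode, decide_true] at this
    exact (of_decide_eq_true this.symm).symm
  let c : X → Option (Bool × Bool) := fun x =>
    if h : ∃ n, r (rep x) n = x then some (decide (h.choose = 0), β (rep x) h.choose) else none
  have hc1 : ∀ x n, c (r (rep x) n) = some (decide (n = 0), β (rep x) n) := fun x n => by
    have e : rep (r (rep x) n) = rep x := (hrep' _ _ (hr2 _ n)).trans (hrep' _ _ (hrep x))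
    have h : ∃ m, r (rep (r (rep x) n)) m = r (rep x) n := ⟨n, by rw [e]⟩
    have h' : h.choose = n := by
      have := h.choose_spec
      generalize h.choose = m at this
      rw [e] at this
      exact hr1 _ this
    show dite _ _ _ = _
    rw [dif_pos h, h', e]
  have hc2 : ∀ x, c x = none ↔ x ∉ Set.range (r (rep x)) := fun x => by
    by_cases h : ∃ n, r (rep x) n = x
    · simp only [c, dif_pos h]
      exact ⟨fun h => by simp at h, fun h' => absurd h h'⟩
    · simp only [c, dif_neg h]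
      exact ⟨fun _ => h, fun _ => trivial⟩
  refine ⟨c, fun φ hφ => ?_⟩
  have hS : ∀ x n, ∃ m, r (rep (φ (r (rep x) n))) m = φ (r (rep x) n) := fun x n => by
    by_contra h
    have := (hc2 _).2 h
    rw [hφ, hc1] at this
    simp at this
  have hfix : ∀ x n, φ (r (rep x) n) = r (rep x) n := by
    intro x
    set y := φ (r (rep x) 0) with hy
    have h0 : φ (r (rep x) 0) = r (rep y) 0 := by
      obtain ⟨m, hm⟩ := hS x 0
      have h1 := hc1 y m
      rw [hm, hφ, hc1] at h1
      simp only [decide_true, Option.some.injEq, Prod.mk.injEq] at h1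
      rw [← hm, of_decide_eq_true h1.1.symm]
    have key : ∀ n, φ (r (rep x) n) = r (rep y) n := by
      intro n
      induction n using Nat.strong_induction_on with
      | _ n ih =>
        rcases n with _ | n
        · exact h0
        have ha : G.Adj (r (rep y) n) (φ (r (rep x) (n + 1))) := by
          rw [← ih n (by omega), φ.map_rel_iff]
          exact (hr3 _ n (n + 1) (by omega)).2 rfl
        obtain ⟨m, hm⟩ := hS x (n + 1)
        rw [hrep' _ _ (adj_cl ha (hr2 _ n)), hrep' _ _ (hrep y)] at hm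
        rw [← hm] at ha ⊢
        rcases lt_trichotomy m n with h | rfl | h
        · rw [← ih m (by omega)] at hm
          have := hr1 _ (φ.injective hm)
          omega
        · exact absurd ha (G.loopless.1 _)
        · rw [(hr3 _ n m h).1 ha]
    have e : rep x = rep y := hβ _ _ fun n => by
      have h1 := hφ (r (rep x) n)
      rw [key, hc1, hc1] at h1
      simp only [Option.some.injEq, Prod.mk.injEq, true_and] at h1
      exact h1.symm
    intro n
    rw [key, e]
  intro x
  by_cases h : x ∈ Set.range (r (rep x))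
  · obtain ⟨n, hn⟩ := h
    rw [← hn]
    exact hfix x n
  obtain ⟨n, hn, -⟩ := hr4 _ x (hx x) x (hx x) h h
  have h1 : φ x ∈ Cl (rep x) := by
    rw [← φ.map_rel_iff, hfix] at hn
    exact adj_cl hn.symm (hr2 _ n)
  have h2 : φ x ∉ Set.range (r (rep x)) := by
    have := (hc2 (φ x)).1 (by rw [hφ]; exact (hc2 x).2 h)
    rwa [hrep' _ _ h1, hrep' _ _ (hrep x)] at this
  obtain ⟨m, a1, a2⟩ := hr4 _ x (hx x) (φ x) h1 h h2
  by_contra hne
  apply a2 hne
  rw [← hfix x m, φ.map_rel_iff]
  exact a1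

theorem result : ∃ (V : Type) (_ : MeasurableSpace V) (_ : StandardBorelSpace V)
    (H : SimpleGraph V), MeasurableSet {p : V × V | H.Adj p.1 p.2} ∧
    (∃ c : V → Fin 5, Dist H c) ∧
    ∀ (I : Type) [MeasurableSpace I] [StandardBorelSpace I] [Countable I] (c : V → I),
      Measurable c → ¬ Dist H c := by
  refine ⟨X, inferInstance, inferInstance, G, G_meas, ?_, fun I _ _ _ c hc => not_dist c hc⟩
  obtain ⟨c, hc⟩ := fin_dist
  let e : Option (Bool × Bool) ≃ Fin 5 := Fintype.equivFinOfCardEq (by simp)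
  exact ⟨e ∘ c, fun φ h => hc φ fun x => e.injective (h x)⟩

end Pool.Agent.Results.MP_591151_lc.Exists
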